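import Pool.Agent.H.MP_65bbe4_ag.Main

namespace Pool.Agent.H.MP_3155f9_ag

open MvPowerSeries Pool.Agent.H.MP_65bbe4_ag

section ring
variable {R : Type*} [CommRing R]

lemma pow_mem (x y e : R) (hu : IsUnit (e * (1 - y ^ 2 * e))) :
    y ^ 7 ∈ Ideal.span {x ^ 3 + y ^ 5 * e, x ^ 2 * y + x * y ^ 2} := by
  rw [← Ideal.unit_mul_mem_iff_mem _ hu, Ideal.mem_span_pair]
  exact ⟨y * (x + y - y ^ 3 * e), -(x - y) * (x + y - y ^ 3 * e) - y ^ 2, by ring⟩

lemma span_eq_det (f g f' g' E A B C D e1 e2 : R) (hd : IsUnit (A * D - B * C))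
    (h1 : f' = A * f + B * g + e1 * E) (h2 : g' = C * f + D * g + e2 * E)
    (hE : E ∈ Ideal.span {f, g}) (hE' : E ∈ Ideal.span {f', g'}) :
    Ideal.span {f', g'} = Ideal.span {f, g} := by
  have hf : f ∈ Ideal.span {f, g} := Ideal.subset_span (by simp)
  have hg : g ∈ Ideal.span {f, g} := Ideal.subset_span (by simp)
  have hf' : f' ∈ Ideal.span {f', g'} := Ideal.subset_span (by simp)
  have hg' : g' ∈ Ideal.span {f', g'} := Ideal.subset_span (by simp)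
  apply le_antisymm
  · rw [Ideal.span_le]
    rintro z (rfl | rfl)
    · rw [SetLike.mem_coe, h1]
      exact add_mem (add_mem (Ideal.mul_mem_left _ _ hf) (Ideal.mul_mem_left _ _ hg))
        (Ideal.mul_mem_left _ _ hE)
    · rw [SetLike.mem_coe, h2]
      exact add_mem (add_mem (Ideal.mul_mem_left _ _ hf) (Ideal.mul_mem_left _ _ hg))
        (Ideal.mul_mem_left _ _ hE)
  · rw [Ideal.span_le]
    rintro z (rfl | rfl)
    · rw [SetLike.mem_coe, ← Ideal.unit_mul_mem_iff_mem _ hd]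
      have : (A * D - B * C) * z = D * f' - B * g' - (D * e1 - B * e2) * E := by
        rw [h1, h2]; ring
      rw [this]
      exact sub_mem (sub_mem (Ideal.mul_mem_left _ _ hf') (Ideal.mul_mem_left _ _ hg'))
        (Ideal.mul_mem_left _ _ hE')
    · rw [SetLike.mem_coe, ← Ideal.unit_mul_mem_iff_mem _ hd]
      have : (A * D - B * C) * z = A * g' - C * f' - (A * e2 - C * e1) * E := by
        rw [h1, h2]; ring
      rw [this]
      exact sub_mem (sub_mem (Ideal.mul_mem_left _ _ hg') (Ideal.mul_mem_left _ _ hf'))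
        (Ideal.mul_mem_left _ _ hE')

end ring

variable {F : Type*} [Field F]

/-- first generator -/
noncomputable abbrev g1 (a b : F) : MvPowerSeries (Fin 2) F :=
  X 0 ^ 3 + X 1 ^ 5 + C a * X 1 ^ 6 + C b * X 1 ^ 8

/-- second generator -/
noncomputable abbrev g2 (F : Type*) [Field F] : MvPowerSeries (Fin 2) F :=
  X 0 ^ 2 * X 1 + X 0 * X 1 ^ 2

lemma mem7 (x : MvPowerSeries (Fin 2) F) (a b : F) :
    (X 1 ^ 7 : MvPowerSeries (Fin 2) F) ∈
      Ideal.span {x ^ 3 + X 1 ^ 5 + C a * X 1 ^ 6 + C b * X 1 ^ 8, x ^ 2 * X 1 + x * X 1 ^ 2} := by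
  have := pow_mem x (X 1) (1 + C a * X 1 + C b * X 1 ^ 3) (by
    rw [isUnit_iff_constantCoeff]; simp)
  have e : x ^ 3 + X 1 ^ 5 + C a * X 1 ^ 6 + C b * X 1 ^ 8 =
      x ^ 3 + X 1 ^ 5 * (1 + C a * X 1 + C b * X 1 ^ 3) := by ring
  rw [e]
  exact this

lemma rel (c s b d : F) : Rel (g1 (c + 3 * s) b) (g2 F) (g1 c d) (g2 F) := by
  obtain ⟨φ, h0, h1⟩ := exists_shear (F := F) (1 + C s * X 1) (-(C s * X 1 ^ 4))
    (by rw [isUnit_iff_constantCoeff]; simp) (by simp) (by intro ψ h; simp [h, hC'])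
  refine ⟨φ, ?_⟩
  have hE := mem7 (φ (X 0)) (c + 3 * s) b
  have e1 : φ (g1 (c + 3 * s) b) =
      φ (X 0) ^ 3 + X 1 ^ 5 + C (c + 3 * s) * X 1 ^ 6 + C b * X 1 ^ 8 := by
    simp only [g1, map_add, map_mul, map_pow, h1, hC]
  have e2 : φ (g2 F) = φ (X 0) ^ 2 * X 1 + φ (X 0) * X 1 ^ 2 := by
    simp only [g2, map_add, map_mul, map_pow, h1]
  rw [e1, e2]
  refine span_eq_det _ _ _ _ (X 1 ^ 7)
    ((1 + C s * X 1) ^ 3 + 3 * (1 + C s * X 1) ^ 2 * C s * X 1 ^ 3)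
    (-(3 * (1 + C s * X 1) ^ 2 * C s * X 1 ^ 2 * X 0))
    (-(C s * (1 + C s * X 1) * (1 + 2 * X 1 ^ 2) * X 1))
    ((1 + C s * X 1) ^ 2 + C s * (1 + C s * X 1) * (1 + 2 * X 1 ^ 2) * (X 0 - X 1))
    (-((3 * C s ^ 2 + 3 * C s * C c) + (C s ^ 3 + 3 * C s ^ 2 * C c + C d - C b) * X 1 +
        (C s ^ 3 * C c + 3 * C s * C d) * X 1 ^ 2 + 3 * C s ^ 2 * C d * X 1 ^ 3 +
        C s ^ 3 * C d * X 1 ^ 4) -
      3 * (1 + C s * X 1) ^ 2 * C s * X 1 * (1 + C c * X 1 + C d * X 1 ^ 3) +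
      3 * (1 + C s * X 1) * C s ^ 2 * X 0 * X 1 - C s ^ 3 * X 1 ^ 5)
    (C s * (C s + C c + C s * C c * X 1 + C d * X 1 ^ 2 * (1 + C s * X 1)) +
      2 * (1 + C s * X 1) * C s * X 1 * (1 + C c * X 1 + C d * X 1 ^ 3) + C s ^ 2 * X 1 ^ 2)
    (by rw [isUnit_iff_constantCoeff]; simp) ?_ ?_ (mem7 _ c d) hE
  · rw [h0, map_add, map_mul, map_ofNat]
    simp only [g1, g2]
    ring
  · rw [h0]
    simp only [g1, g2]
    ring

lemma minimal (a b : F) (u v : MvPowerSeries (Fin 2) F)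
    (h : u * g1 a b + v * g2 F = 0) : ¬ IsUnit u ∧ ¬ IsUnit v := by
  constructor
  · intro hu
    have H : HasSubst (![X 0, 0] : Fin 2 → MvPowerSeries (Fin 2) F) := HasSubst.X_zero
    have h0 : substAlgHom (R := F) H (X 0) = X 0 := substAlgHom_X H 0
    have h1 : substAlgHom (R := F) H (X 1) = 0 := substAlgHom_X H 1
    generalize substAlgHom (R := F) H = ψ at h0 h1
    have := congrArg ψ h
    simp only [g1, g2, map_add, map_mul, map_pow, h0, h1, map_zero] at this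
    have h3 : ψ u * X 0 ^ 3 = 0 := by
      rw [← this]
      simp
    rw [(hu.map _).mul_right_eq_zero] at h3
    exact X_ne _ (pow_eq_zero_iff (by norm_num) |>.1 h3)
  · intro hv
    have H : HasSubst (![X 1 ^ 2, X 1] : Fin 2 → MvPowerSeries (Fin 2) F) :=
      hasSubst_of_constantCoeff_zero (by intro i; fin_cases i <;> simp)
    have h0 : substAlgHom (R := F) H (X 0) = X 1 ^ 2 := substAlgHom_X H 0
    have h1 : substAlgHom (R := F) H (X 1) = X 1 := substAlgHom_X H 1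
    generalize substAlgHom (R := F) H = ψ at h0 h1
    have := congrArg ψ h
    simp only [g1, g2, map_add, map_mul, map_pow, h0, h1, map_zero, hC'] at this
    have h3 : X 1 ^ 4 * (ψ v + X 1 * (ψ v + ψ u * (1 + X 1 + C a * X 1 + C b * X 1 ^ 3))) = 0 := by
      rw [← this]
      ring
    rw [(unit_add _ _ (hv.map ψ)).mul_left_eq_zero] at h3
    exact X_ne _ (pow_eq_zero_iff (by norm_num) |>.1 h3)

theorem main (h2 : (2 : F) = 0) (a b c d : F) :
    ∃ (U : GL (Fin 2) (MvPowerSeries (Fin 2) F))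
      (φ : MvPowerSeries (Fin 2) F ≃ₐ[F] MvPowerSeries (Fin 2) F),
      ![g1 c d, g2 F] = (U : Matrix (Fin 2) (Fin 2) (MvPowerSeries (Fin 2) F)).mulVec
        ![φ (g1 a b), φ (g2 F)] := by
  obtain ⟨φ, h⟩ := rel c (a - c) b d
  have e : c + 3 * (a - c) = a := by linear_combination (a - c) * h2
  rw [e] at h
  obtain ⟨U, hU⟩ := exists_GL _ _ _ _ h (minimal c d)
  exact ⟨U, φ, hU⟩

end Pool.Agent.H.MP_3155f9_ag
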